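import Pool.Agent.PV3.Stmts

/-! Squad PV3, module COO: measure preserving coordinates. -/

set_option autoImplicit false

open MeasureTheory Metric Set Filter Topology

namespace PV3.H87

open PV PV3

/-- `(s, r, z) ↦ (s, r, z_1, ..., z_n)`. -/
noncomputable def asm {n : ℕ} (p : ℝ × ℝ × E n) : E (n + 2) :=
  WithLp.toLp 2 (Fin.cons p.1 (Fin.cons p.2.1 (WithLp.ofLp p.2.2)))

theorem cons_mp (n : ℕ) : MeasurePreserving
    (fun p : ℝ × (Fin n → ℝ) => (Fin.cons p.1 p.2 : Fin (n + 1) → ℝ))
    ((volume : Measure ℝ).prod (volume : Measure (Fin n → ℝ))) volume := by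
  have h := (volume_preserving_piFinSuccAbove (fun _ : Fin (n + 1) => ℝ) 0).symm
  have e : (fun p : ℝ × (Fin n → ℝ) => (Fin.cons p.1 p.2 : Fin (n + 1) → ℝ)) =
      (MeasurableEquiv.piFinSuccAbove (fun _ : Fin (n + 1) => ℝ) 0).symm := by
    funext p
    simp only [MeasurableEquiv.piFinSuccAbove]
    ext i
    refine Fin.cases ?_ (fun i => ?_) i <;> simp [Fin.consEquiv]
  rw [e]
  exact h

theorem asm_mp (n : ℕ) : MeasurePreserving (asm (n := n))
    ((volume : Measure ℝ).prod ((volume : Measure ℝ).prod (volume : Measure (E n)))) volume := by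
  have h1 : MeasurePreserving (fun p : ℝ × ℝ × E n => (p.1, p.2.1, WithLp.ofLp p.2.2))
      ((volume : Measure ℝ).prod ((volume : Measure ℝ).prod (volume : Measure (E n))))
      ((volume : Measure ℝ).prod ((volume : Measure ℝ).prod (volume : Measure (Fin n → ℝ)))) :=
    (MeasurePreserving.id volume).prod ((MeasurePreserving.id volume).prod
      (PiLp.volume_preserving_ofLp (Fin n)))
  have h2 : MeasurePreserving (fun p : ℝ × ℝ × (Fin n → ℝ) =>
      (p.1, (Fin.cons p.2.1 p.2.2 : Fin (n + 1) → ℝ)))
      ((volume : Measure ℝ).prod ((volume : Measure ℝ).prod (volume : Measure (Fin n → ℝ))))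
      ((volume : Measure ℝ).prod (volume : Measure (Fin (n + 1) → ℝ))) :=
    (MeasurePreserving.id volume).prod (cons_mp n)
  have h3 := cons_mp (n + 1)
  have h4 := PiLp.volume_preserving_toLp (Fin (n + 2))
  exact h4.comp (h3.comp (h2.comp h1))

/-- The embedding of the last `n` coordinates. -/
noncomputable def emb (n : ℕ) : E n →ₗᵢ[ℝ] E (n + 2) where
  toFun z := asm (0, 0, z)
  map_add' x y := by
    ext i
    refine Fin.cases ?_ (fun i => Fin.cases ?_ (fun i => ?_) i) i <;> simp [asm]
  map_smul' c x := by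
    ext i
    refine Fin.cases ?_ (fun i => Fin.cases ?_ (fun i => ?_) i) i <;> simp [asm]
  norm_map' x := by
    simp [asm, EuclideanSpace.norm_eq, Fin.sum_univ_succ]

theorem coo : COOStmt := by
  intro n u ν hu hν huν
  have hν' : inner ℝ ν u = 0 := by rw [real_inner_comm]; exact huν
  obtain ⟨b, hb⟩ := Orthonormal.exists_orthonormalBasis_extension_of_card_eq (𝕜 := ℝ)
    (E := E (n + 2)) (ι := Fin (n + 2)) (by simp) (v := fun i => if i = 0 then u else ν)
    (s := {0, 1}) (by
      rw [orthonormal_iff_ite]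
      rintro ⟨i, hi⟩ ⟨j, hj⟩
      simp only [Set.mem_insert_iff, Set.mem_singleton_iff] at hi hj
      rcases hi with rfl | rfl <;> rcases hj with rfl | rfl <;>
        simp [huν, hν', hu, hν])
  have hb0 : b 0 = u := by simpa using hb 0 (by simp)
  have hb1 : b 1 = ν := by simpa using hb 1 (by simp)
  have key : ∀ p : ℝ × ℝ × E n,
      coord u ν (b.repr.symm.toLinearIsometry.comp (emb n)) p = b.repr.symm (asm p) := by
    intro p
    obtain ⟨s, r, z⟩ := p
    have e : asm (s, r, z) = s • EuclideanSpace.single (0 : Fin (n + 2)) (1 : ℝ) +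
        r • EuclideanSpace.single (1 : Fin (n + 2)) (1 : ℝ) + asm (0, 0, z) := by
      ext i
      refine Fin.cases ?_ (fun i => Fin.cases ?_ (fun i => ?_) i) i
      · simp [asm]
      · simp [asm]
      · simp [asm, Fin.ext_iff]
    rw [e, map_add, map_add, map_smul, map_smul, b.repr_symm_single, b.repr_symm_single, hb0, hb1]
    rfl
  refine ⟨b.repr.symm.toLinearIsometry.comp (emb n), fun z => ?_, fun z => ?_, ?_⟩
  · have e : u = b.repr.symm (EuclideanSpace.single (0 : Fin (n + 2)) (1 : ℝ)) := by
      rw [b.repr_symm_single, hb0]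
    have e2 : (b.repr.symm.toLinearIsometry.comp (emb n)) z = b.repr.symm (asm (0, 0, z)) := rfl
    rw [e2]
    conv_lhs => rw [e]
    rw [LinearIsometryEquiv.inner_map_map, EuclideanSpace.inner_single_left]
    simp [asm]
  · have e : ν = b.repr.symm (EuclideanSpace.single (1 : Fin (n + 2)) (1 : ℝ)) := by
      rw [b.repr_symm_single, hb1]
    have e2 : (b.repr.symm.toLinearIsometry.comp (emb n)) z = b.repr.symm (asm (0, 0, z)) := rfl
    rw [e2]
    conv_lhs => rw [e]
    rw [LinearIsometryEquiv.inner_map_map, EuclideanSpace.inner_single_left]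
    simp [asm]
  · have e : coord u ν (b.repr.symm.toLinearIsometry.comp (emb n)) =
        fun p => b.repr.symm (asm p) := funext key
    rw [e]
    exact b.measurePreserving_repr_symm.comp (asm_mp n)

end PV3.H87
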